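import Pool.Agent.helper93.TV.Spec1

/-!
# Row tv:H4 (MP_29f1cd_al): face 4 of the homotopy
-/

set_option autoImplicit false

namespace Pool.Agent.helper93.TV

open BigOperators Finset Matrix

/-- the sum of the weights of the vertices over `a` is the global dimension -/
theorem H4_wt {I V : Type} [Fintype I] [DecidableEq I] [Fintype V] [DecidableEq V]
    (D : FD I V) (F : V → V → V → V → ℂ) (h : D.Dims F) (a : I) :
    ∑ ε, (if a = D.s1 ε then D.wt F ε else 0) = (D.gd F : ℂ) := by
  have ha := h.pos a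
  have h1 : ∑ ε, (if a = D.s1 ε then
      (D.dm F (D.s2 ε) * D.dm F (D.t ε) / D.dm F (D.s1 ε) : ℝ) else 0) = D.gd F := by
    have h2 : ∀ ε, (if a = D.s1 ε then
        (D.dm F (D.s2 ε) * D.dm F (D.t ε) / D.dm F (D.s1 ε) : ℝ) else 0) =
        ∑ b, if D.s1 ε = a ∧ D.s2 ε = b then D.dm F b / D.dm F a * D.dm F (D.t ε) else 0 := by
      intro ε
      by_cases h3 : a = D.s1 ε
      · rw [if_pos h3, Finset.sum_eq_single (D.s2 ε)]
        · rw [if_pos ⟨h3.symm, rfl⟩, ← h3]
          ring
        · intro b _ hb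
          rw [if_neg]
          rintro ⟨-, h4⟩
          exact hb h4.symm
        · intro h4
          exact absurd (Finset.mem_univ _) h4
      · rw [if_neg h3]
        symm
        refine Finset.sum_eq_zero fun b _ => ?_
        rw [if_neg]
        rintro ⟨h4, -⟩
        exact h3 h4.symm
    rw [Finset.sum_congr rfl fun ε _ => h2 ε, Finset.sum_comm]
    unfold FD.gd
    refine Finset.sum_congr rfl fun b _ => ?_
    rw [← Finset.sum_filter, ← Finset.mul_sum, h.char a b]
    field_simp
  rw [← h1]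
  push_cast
  refine Finset.sum_congr rfl fun ε _ => ?_
  unfold FD.wt
  split_ifs
  · push_cast; ring
  · rfl

theorem H4 : H4_stmt := by
  intro I V _ _ _ _ D F h Y
  funext x y
  unfold FD.h3 f4 L12
  have hg : (D.gd F : ℂ) ≠ 0 := by
    have h1 : 0 < D.gd F := by
      unfold FD.gd
      exact Finset.sum_pos (fun a _ => by have := h.pos a; positivity) ⟨D.o, Finset.mem_univ _⟩
    exact_mod_cast h1.ne'
  have h2 : ∀ ε, (if D.t x.2 = D.s1 ε then
      D.wt F ε * (if ε = ε then Y (x.1, x.2) (y.1, y.2) else 0) else 0) =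
      (if D.t x.2 = D.s1 ε then D.wt F ε else 0) * Y x y := by
    intro ε
    rw [if_pos rfl]
    split_ifs
    · rfl
    · rw [zero_mul]
  have h3 : ∑ ε, (if D.t x.2 = D.s1 ε then
      D.wt F ε * (if ε = ε then Y (x.1, x.2) (y.1, y.2) else 0) else 0) = (D.gd F : ℂ) * Y x y := by
    rw [Finset.sum_congr rfl fun ε _ => h2 ε, ← Finset.sum_mul, H4_wt D F h]
  refine (congrArg (fun z => (((D.gd F)⁻¹ : ℝ) : ℂ) * z) h3).trans ?_
  rw [← mul_assoc, Complex.ofReal_inv, inv_mul_cancel₀ hg, one_mul]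

end Pool.Agent.helper93.TV
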